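import Pool.Agent.Y197.LR.Stm

/-!
# Job LR-STEP: one step of the contraction
-/

set_option autoImplicit false

namespace Pool.Agent.Y768.LR

open H974 Finset Pool.Agent.Y197.LR

lemma hfOk : Ok hf := fun _ => by constructor <;> norm_num [hf]

lemma U_nonneg (E : Finset Edg) (T S : Set Vtx) (G : Finset Edg) : 0 ≤ U E T S G :=
  Pr_nonneg hfOk _ _

lemma aa_nonneg (n : ℤ) (S : Set Vtx) (F : Finset Edg) : 0 ≤ aa n S F := U_nonneg _ _ _ _

lemma bb_nonneg (n : ℤ) (E : Finset Edg) (T : Set Vtx) : 0 ≤ bb n E T := Pr_nonneg hfOk _ _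

lemma rtV_Bd (n : ℤ) (ω : Finset Edg) : RtV n 0 (Bd n (KK n ω)) := by
  rintro w ⟨⟨e, he, hew⟩, -⟩
  have h := KK_subset n ω he
  rcases e with ⟨x, y, _ | _⟩
  · simp only [mem_TBE_false] at h
    simp only [src, tgt, Bool.false_eq_true, if_false] at hew
    rcases hew with hew | hew <;> (rw [← hew]; refine ⟨?_, ?_, ?_⟩ <;> simp only <;> omega)
  · simp only [mem_TBE_true] at h
    simp only [src, tgt, if_true] at hew
    rcases hew with hew | hew <;> (rw [← hew]; refine ⟨?_, ?_, ?_⟩ <;> simp only <;> omega)

lemma rt_SE (n c c' : ℤ) (G : Finset Edg) (hG : G ⊆ SE n c c') : Rt n c G := by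
  intro e he
  have h := hG he
  unfold SE at h
  rw [Finset.mem_filter] at h
  obtain ⟨h, h'⟩ := h
  unfold InS
  rcases e with ⟨x, y, _ | _⟩
  · simp only [mem_RE_false] at h
    simp only [tgt, Bool.false_eq_true, if_false]
    omega
  · simp only [mem_RE_true] at h
    simp only [tgt, if_true]
    omega

open Classical in
lemma Ub_comb (n : ℤ) (E E' : Finset Edg) (T T' : Set Vtx) (p q : ℝ)
    (h : ∀ (S : Set Vtx) (G : Finset Edg), RtV n 0 S → Rt n 0 G →
      0 ≤ p * U E T S G + q * U E' T' S G) :
    0 ≤ p * Ub n E T + q * Ub n E' T' := by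
  unfold Ub
  rw [← Ex_mul_left, ← Ex_mul_left, ← Ex_add]
  refine Ex_nonneg hfOk fun ω hω => ?_
  have h1 := h (Bd n (KK n ω)) (ω.filter (fun e => ¬ EA n (KK n ω) e)) (rtV_Bd n ω)
    (rt_SE n 0 (N n) _ ((Finset.filter_subset _ _).trans hω))
  have h2 := mul_nonneg (ind_nonneg (good n ω)) h1
  linarith

theorem main (h1 : S_FAC) (h2 : S_P2) (h3 : S_P3) : S_STEP := by
  obtain ⟨d1, hd1, h1⟩ := h1
  obtain ⟨d3, hd3, h3⟩ := h3
  set D : ℝ := min 1 (d1 * d3) with hD
  have hD0 : 0 < D := lt_min one_pos (mul_pos hd1 hd3)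
  have hD1 : D ≤ 1 := min_le_left _ _
  have hD2 : D ≤ d1 * d3 := min_le_right _ _
  have hDsq : D ^ 2 ≤ D := by nlinarith
  refine ⟨D ^ 2 / 2, by positivity, by linarith, ?_⟩
  intro n E E' T T' hn hE hE'
  -- lower bounds
  have low : ∀ (E : Finset Edg) (T : Set Vtx), LS n 0 E T → ∀ (S : Set Vtx) (F : Finset Edg),
      RtV n (N n) S → Rt n (N n) F →
      D * (aa n S F * bb n E T) ≤ U (E ∪ SE n 0 (N n)) T S F := by
    intro E T hE S F hS hF
    have k := h1 n E E T T 1 0 hn hE hE (fun S G _ _ => by
      have := U_nonneg E T S G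
      linarith) S F hS hF
    have k3 := h3 n E T hn hE
    have ha := aa_nonneg n S F
    have hb := bb_nonneg n E T
    calc D * (aa n S F * bb n E T) ≤ (d1 * d3) * (aa n S F * bb n E T) :=
          mul_le_mul_of_nonneg_right hD2 (mul_nonneg ha hb)
      _ = d1 * aa n S F * (d3 * bb n E T) := by ring
      _ ≤ d1 * aa n S F * Ub n E T := mul_le_mul_of_nonneg_left k3 (mul_nonneg hd1.le ha)
      _ ≤ _ := by linarith
  constructor
  · intro hb hb'
    refine ⟨D * bb n E' T' / bb n E T, bb n E' T' / (D * bb n E T), by positivity, ?_, ?_, ?_⟩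
    · rw [div_le_div_iff₀ hb (by positivity)]
      have : D * bb n E' T' * (D * bb n E T) = D ^ 2 * (bb n E' T' * bb n E T) := by ring
      rw [this]
      have h0 : 0 ≤ bb n E' T' * bb n E T := by positivity
      nlinarith
    · have e : D * bb n E' T' / bb n E T / (D ^ 2 / 2) = 2 * (bb n E' T' / (D * bb n E T)) := by
        field_simp
      rw [e]
      have : 0 ≤ bb n E' T' / (D * bb n E T) := by positivity
      linarith
    · intro S F hS hF
      have l1 := low E T hE S F hS hF
      have l2 := low E' T' hE' S F hS hF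
      have u1 := h2 n E T S F hn hE hS hF
      have u2 := h2 n E' T' S F hn hE' hS hF
      constructor
      · calc D * bb n E' T' / bb n E T * U (E ∪ SE n 0 (N n)) T S F
            ≤ D * bb n E' T' / bb n E T * (aa n S F * bb n E T) :=
              mul_le_mul_of_nonneg_left u1 (by positivity)
          _ = D * (aa n S F * bb n E' T') := by field_simp
          _ ≤ _ := l2
      · calc U (E' ∪ SE n 0 (N n)) T' S F ≤ aa n S F * bb n E' T' := u2
          _ = bb n E' T' / (D * bb n E T) * (D * (aa n S F * bb n E T)) := by field_simp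
          _ ≤ _ := mul_le_mul_of_nonneg_left l1 (by positivity)
  · intro m M hm hmM hyp
    have hypM : ∀ (S : Set Vtx) (G : Finset Edg), RtV n 0 S → Rt n 0 G →
        0 ≤ M * U E T S G + (-1) * U E' T' S G := by
      intro S G hS hG
      have := (hyp S G hS hG).2
      linarith
    have hypm : ∀ (S : Set Vtx) (G : Finset Edg), RtV n 0 S → Rt n 0 G →
        0 ≤ (-m) * U E T S G + 1 * U E' T' S G := by
      intro S G hS hG
      have := (hyp S G hS hG).1
      linarith
    have cM := Ub_comb n E E' T T' M (-1) hypM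
    have cm := Ub_comb n E E' T T' (-m) 1 hypm
    have fM := h1 n E E' T T' M (-1) hn hE hE' hypM
    have fm := h1 n E E' T T' (-m) 1 hn hE hE' hypm
    rcases (bb_nonneg n E T).eq_or_lt with hb | hb
    · refine ⟨m, m, le_rfl, le_rfl, hmM, ?_, ?_⟩
      · have : 0 ≤ (1 - D ^ 2 / 2) * (M - m) := mul_nonneg (by linarith) (by linarith)
        linarith
      · intro S F hS hF
        have u1 := h2 n E T S F hn hE hS hF
        rw [← hb, mul_zero] at u1
        have u0 : U (E ∪ SE n 0 (N n)) T S F = 0 := le_antisymm u1 (U_nonneg _ _ _ _)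
        have k := fM S F hS hF
        have k0 : 0 ≤ d1 * aa n S F * (M * Ub n E T + (-1) * Ub n E' T') :=
          mul_nonneg (mul_nonneg hd1.le (aa_nonneg n S F)) cM
        have u' := U_nonneg (E' ∪ SE n 0 (N n)) T' S F
        rw [u0] at k ⊢
        constructor
        · linarith
        · linarith
    · have hUb : 0 < Ub n E T := lt_of_lt_of_le (mul_pos hd3 hb) (h3 n E T hn hE)
      set t : ℝ := Ub n E' T' / Ub n E T with ht
      have ht' : Ub n E' T' = t * Ub n E T := by rw [ht]; field_simp
      have tm : m ≤ t := by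
        rw [ht, le_div_iff₀ hUb]; linarith
      have tM : t ≤ M := by
        rw [ht, div_le_iff₀ hUb]; linarith
      refine ⟨m + D * (t - m), M - D * (M - t), ?_, ?_, ?_, ?_, ?_⟩
      · have := mul_nonneg hD0.le (sub_nonneg.2 tm)
        linarith
      · have : 0 ≤ (1 - D) * (M - m) := mul_nonneg (by linarith) (by linarith)
        linarith
      · have := mul_nonneg hD0.le (sub_nonneg.2 tM)
        linarith
      · have e : M - D * (M - t) - (m + D * (t - m)) = (1 - D) * (M - m) := by ring
        rw [e]
        exact mul_le_mul_of_nonneg_right (by linarith) (by linarith)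
      · intro S F hS hF
        have u1 := h2 n E T S F hn hE hS hF
        have ha := aa_nonneg n S F
        have k3 := h3 n E T hn hE
        have gen : ∀ r : ℝ, 0 ≤ r → D * r * U (E ∪ SE n 0 (N n)) T S F ≤
            d1 * aa n S F * (r * Ub n E T) := by
          intro r hr
          calc D * r * U (E ∪ SE n 0 (N n)) T S F ≤ D * r * (aa n S F * bb n E T) :=
                mul_le_mul_of_nonneg_left u1 (by positivity)
            _ ≤ (d1 * d3) * (r * (aa n S F * bb n E T)) := by
                rw [mul_assoc]
                exact mul_le_mul_of_nonneg_right hD2 (by positivity)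
            _ = d1 * aa n S F * (r * (d3 * bb n E T)) := by ring
            _ ≤ d1 * aa n S F * (r * Ub n E T) := by
                refine mul_le_mul_of_nonneg_left ?_ (mul_nonneg hd1.le ha)
                exact mul_le_mul_of_nonneg_left k3 hr
        have km := fm S F hS hF
        have kM := fM S F hS hF
        rw [ht'] at km kM
        have gm := gen (t - m) (by linarith)
        have gM := gen (M - t) (by linarith)
        constructor
        · have e1 : d1 * aa n S F * (-m * Ub n E T + 1 * (t * Ub n E T)) =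
            d1 * aa n S F * ((t - m) * Ub n E T) := by ring
          rw [e1] at km
          linarith
        · have e1 : d1 * aa n S F * (M * Ub n E T + -1 * (t * Ub n E T)) =
            d1 * aa n S F * ((M - t) * Ub n E T) := by ring
          rw [e1] at kM
          linarith

end Pool.Agent.Y768.LR
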